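import Mathlib

/-!
The congruence `S'_p ≡ (-1/p) (2x - p/(2x)) (mod p²)`, `S'_p = ∑_{k<p} binom(2k,k) T_{2k}(4,-3)/16^k`,
fails at the primes `7, 13, 19, 31, 37, 43`; there it holds when the sum is cut at `k = (p-1)/2`.
-/

set_option autoImplicit false

namespace Pool.Agent.Results.MP_b67006_nt.FullRangeFails

/-- `u ≡ v (mod p^m)` in the ring of rationals whose denominator is prime to `p`:
`u - v = p^m r` with the denominator of `r` not divisible by `p` -/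
def CongMod (p m : ℕ) (u v : ℚ) : Prop := ∃ r : ℚ, ¬ p ∣ r.den ∧ u - v = (p : ℚ) ^ m * r

/-- The coefficient of `t^n` in `(t² + b t + c)^n`:
`T_n(b,c) = ∑_{j ≤ n/2} binom(n,2j) binom(2j,j) b^(n-2j) c^j` -/
def T (n : ℕ) (b c : ℤ) : ℤ :=
  ∑ j ∈ Finset.range (n / 2 + 1), (n.choose (2 * j) : ℤ) * ((2 * j).choose j) *
    b ^ (n - 2 * j) * c ^ j

/-- `∑_{k<K} binom(2k,k) T_{2k}(b,c) / 16^k` -/
def S (K : ℕ) (b c : ℤ) : ℚ :=
  ∑ k ∈ Finset.range K, (((2 * k).choose k : ℕ) : ℚ) / 16 ^ k * ((T (2 * k) b c : ℤ) : ℚ)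

/-- The right-hand side `(-1/p) (2x - p/(2x))`, with `(-1/p) = (-1)^((p-1)/2)`. -/
def R (p : ℕ) (x : ℤ) : ℚ := (-1) ^ ((p - 1) / 2) * (2 * x - p / (2 * x))

/-- The hypotheses on `x, y` in statement (a): `p = x² + 3y²` and `x ≡ 1 (mod 3)`. -/
def Hyp (p : ℕ) (x y : ℤ) : Prop := (p : ℤ) = x ^ 2 + 3 * y ^ 2 ∧ x % 3 = 1

instance (p : ℕ) (x y : ℤ) : Decidable (Hyp p x y) := by unfold Hyp; infer_instance

theorem not_congMod {p m : ℕ} (hp : p ≠ 0) {u v : ℚ} (h : p ∣ ((u - v) / (p : ℚ) ^ m).den) :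
    ¬ CongMod p m u v := by
  rintro ⟨r, hr, h1⟩
  apply hr
  have h2 : (u - v) / (p : ℚ) ^ m = r := by
    rw [h1]
    have : (p : ℚ) ^ m ≠ 0 := pow_ne_zero _ (by exact_mod_cast hp)
    field_simp
  rw [← h2]
  exact h

theorem congMod_of {p m : ℕ} (hp : p ≠ 0) {u v : ℚ} (h : ¬ p ∣ ((u - v) / (p : ℚ) ^ m).den) :
    CongMod p m u v := by
  refine ⟨(u - v) / (p : ℚ) ^ m, h, ?_⟩
  have : (p : ℚ) ^ m ≠ 0 := pow_ne_zero _ (by exact_mod_cast hp)
  field_simp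

theorem key (p : ℕ) (hp : p ≠ 0) (hp' : p ≤ 43)
    (h : ∀ i ∈ Finset.range 13, ∀ j ∈ Finset.range 7,
      Hyp p ((i : ℤ) - 6) ((j : ℤ) - 3) →
      p ∣ ((S p 4 (-3) - R p ((i : ℤ) - 6)) / (p : ℚ) ^ 2).den ∧
      ¬ p ∣ ((S ((p - 1) / 2 + 1) 4 (-3) - R p ((i : ℤ) - 6)) / (p : ℚ) ^ 2).den ∧
      ¬ p ∣ ((S ((p - 1) / 2 + 1) 2 3 - R p ((i : ℤ) - 6)) / (p : ℚ) ^ 2).den)
    (x y : ℤ) (hxy : Hyp p x y) :
    ¬ CongMod p 2 (S p 4 (-3)) (R p x) ∧
      CongMod p 2 (S ((p - 1) / 2 + 1) 4 (-3)) (R p x) ∧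
      CongMod p 2 (S ((p - 1) / 2 + 1) 2 3) (R p x) := by
  have h0 := hxy.1
  have hp'' : (p : ℤ) ≤ 43 := by exact_mod_cast hp'
  have a1 : -6 ≤ x := by nlinarith [sq_nonneg x, sq_nonneg y]
  have a2 : x ≤ 6 := by nlinarith [sq_nonneg x, sq_nonneg y]
  have b1 : -3 ≤ y := by nlinarith [sq_nonneg x, sq_nonneg y]
  have b2 : y ≤ 3 := by nlinarith [sq_nonneg x, sq_nonneg y]
  have hA : (((x + 6).toNat : ℕ) : ℤ) - 6 = x := by omega
  have hB : (((y + 3).toNat : ℕ) : ℤ) - 3 = y := by omega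
  have := h (x + 6).toNat (by rw [Finset.mem_range]; omega) (y + 3).toNat
    (by rw [Finset.mem_range]; omega) (by rw [hA, hB]; exact hxy)
  rw [hA] at this
  exact ⟨not_congMod hp this.1, congMod_of hp this.2.1, congMod_of hp this.2.2⟩

/-- For `p ∈ {7, 13, 19, 31, 37, 43}` and all `x, y` with `p = x² + 3y²`, `x ≡ 1 (mod 3)` (such
`x, y` exist) the congruence for the full sum `S'_p` in statement (a) fails modulo `p²`, while the
same congruence holds for the sum over `0 ≤ k ≤ (p-1)/2`, and for `S_p`. -/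
theorem result : ∀ p ∈ ({7, 13, 19, 31, 37, 43} : Finset ℕ), p.Prime ∧ p % 3 = 1 ∧
    (∃ x y : ℤ, Hyp p x y) ∧
    ∀ x y : ℤ, Hyp p x y → ¬ CongMod p 2 (S p 4 (-3)) (R p x) ∧
      CongMod p 2 (S ((p - 1) / 2 + 1) 4 (-3)) (R p x) ∧
      CongMod p 2 (S ((p - 1) / 2 + 1) 2 3) (R p x) := by
  intro p hp
  simp only [Finset.mem_insert, Finset.mem_singleton] at hp
  rcases hp with rfl | rfl | rfl | rfl | rfl | rfl
  · exact ⟨by norm_num, by norm_num, ⟨-2, 1, by decide⟩,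
      key 7 (by norm_num) (by norm_num) (by decide +kernel)⟩
  · exact ⟨by norm_num, by norm_num, ⟨1, 2, by decide⟩,
      key 13 (by norm_num) (by norm_num) (by decide +kernel)⟩
  · exact ⟨by norm_num, by norm_num, ⟨4, 1, by decide⟩,
      key 19 (by norm_num) (by norm_num) (by decide +kernel)⟩
  · exact ⟨by norm_num, by norm_num, ⟨-2, -3, by decide⟩,
      key 31 (by norm_num) (by norm_num) (by decide +kernel)⟩
  · exact ⟨by norm_num, by norm_num, ⟨-5, 2, by decide⟩,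
      key 37 (by norm_num) (by norm_num) (by decide +kernel)⟩
  · exact ⟨by norm_num, by norm_num, ⟨4, 3, by decide⟩,
      key 43 (by norm_num) (by norm_num) (by decide +kernel)⟩

end Pool.Agent.Results.MP_b67006_nt.FullRangeFails
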